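import Pool.Agent.GT.BadDef
import Pool.Agent.TInc.Riem
import Pool.Agent.HYG.Roots

/-!
# The line: places, Riemann's inequality, elliptic curves with good reduction everywhere
-/

set_option autoImplicit false

noncomputable section

namespace Pool.Agent.KEx

open Pool.Agent.ZCyc Pool.Agent.Dess Pool.Agent.TInc Polynomial Module
open scoped Classical

variable {k : Type} [Field k] [IsAlgClosed k] [CharZero k]

omit [IsAlgClosed k] [CharZero k] in
/-- the line is a curve -/
theorem hLn : IsCurve k (RatFunc k) := HYG.isCurve_ratFunc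

/-- a function of degree one has one zero -/
private theorem one_zero {f : RatFunc k} (hf : Transcendental k f)
    (h1 : IntermediateField.adjoin k {f} = ⊤) :
    ∃ v₀ : Place k (RatFunc k), ord v₀ f = 1 ∧ ∀ v : Place k (RatFunc k), v.Vanishes f → v = v₀ := by
  have hf0 : f ≠ 0 := by
    rintro rfl
    exact hf isAlgebraic_zero
  let S : Finset (Place k (RatFunc k)) := (finite_ord hLn f).toFinset.filter fun v => v.Vanishes f
  have hS : ∀ v, v ∈ S ↔ v.Vanishes f := by
    intro v
    rw [Finset.mem_filter, Set.Finite.mem_toFinset]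
    constructor
    · exact fun h => h.2
    · intro h
      exact ⟨ne_of_gt ((vanishes_iff_ord hLn hf0).1 h), h⟩
  have h2 := deg_zeros' hLn hf S hS
  rw [h1, IntermediateField.finrank_top] at h2
  have hpos : ∀ v ∈ S, 1 ≤ ord v f := fun v hv =>
    (vanishes_iff_ord hLn hf0).1 ((hS v).1 hv)
  have hne : S.Nonempty := by
    rw [Finset.nonempty_iff_ne_empty]
    intro h
    rw [h, Finset.sum_empty] at h2
    norm_num at h2
  obtain ⟨v₀, hv₀⟩ := hne
  have h3 : ∀ v ∈ S, v = v₀ := by
    intro v hv
    by_contra hne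
    have h4 : ({v, v₀} : Finset (Place k (RatFunc k))) ⊆ S := by
      intro w hw
      rw [Finset.mem_insert, Finset.mem_singleton] at hw
      rcases hw with rfl | rfl
      · exact hv
      · exact hv₀
    have h5 := Finset.sum_le_sum_of_subset_of_nonneg h4 (f := fun v => ord v f)
      (fun w hw _ => by have := hpos w hw; omega)
    rw [Finset.sum_pair hne, h2] at h5
    have h6 := hpos v hv
    have h7 := hpos v₀ hv₀
    push_cast at h5
    omega
  refine ⟨v₀, ?_, fun v hv => h3 v ((hS v).2 hv)⟩
  rw [Finset.sum_eq_single v₀ (fun v hv hne => absurd (h3 v hv) hne)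
    (fun h => absurd hv₀ h)] at h2
  exact_mod_cast h2

omit [IsAlgClosed k] [CharZero k] in
private theorem X_transc : Transcendental k (RatFunc.X : RatFunc k) := RatFunc.transcendental_X

/-- the point at infinity -/
theorem exists_inf : ∃ o : Place k (RatFunc k), ord o (RatFunc.X : RatFunc k) = -1 ∧
    ∀ v : Place k (RatFunc k), v ≠ o → (RatFunc.X : RatFunc k) ∈ v.ring := by
  have hT : Transcendental k (RatFunc.X : RatFunc k)⁻¹ := by
    intro h
    apply X_transc (k := k)
    simpa using h.inv
  have hadj : IntermediateField.adjoin k {(RatFunc.X : RatFunc k)⁻¹} = ⊤ := by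
    rw [← RatFunc.adjoin_X]
    apply le_antisymm
    · rw [IntermediateField.adjoin_simple_le_iff]
      exact inv_mem (IntermediateField.mem_adjoin_simple_self k _)
    · rw [IntermediateField.adjoin_simple_le_iff]
      have h1 := inv_mem (IntermediateField.mem_adjoin_simple_self k (RatFunc.X : RatFunc k)⁻¹)
      rwa [inv_inv] at h1
  obtain ⟨o, h1, h2⟩ := one_zero hT hadj
  refine ⟨o, ?_, fun v hv => ?_⟩
  · rw [ord_inv hLn] at h1
    omega
  · by_contra hcon
    apply hv
    apply h2
    rw [Place.vanishes_iff_or]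
    refine Or.inr ?_
    rwa [inv_inv]

/-- the point `c` of the line -/
theorem exists_fin (c : k) (v : Place k (RatFunc k)) (hv : v.At RatFunc.X c) :
    ord v (RatFunc.X - algebraMap k (RatFunc k) c) = 1 := by
  set f : RatFunc k := RatFunc.X - algebraMap k (RatFunc k) c with hf
  have hX : (RatFunc.X : RatFunc k) = f + algebraMap k (RatFunc k) c := by
    rw [hf]
    ring
  have hT : Transcendental k f := by
    intro h
    apply X_transc (k := k)
    rw [hX]
    exact h.add (isAlgebraic_algebraMap c)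
  have hadj : IntermediateField.adjoin k {f} = ⊤ := by
    rw [← RatFunc.adjoin_X]
    apply le_antisymm
    · rw [IntermediateField.adjoin_simple_le_iff]
      exact sub_mem (IntermediateField.mem_adjoin_simple_self k _)
        (IntermediateField.algebraMap_mem _ c)
    · rw [IntermediateField.adjoin_simple_le_iff]
      have h1 : f + algebraMap k (RatFunc k) c ∈ IntermediateField.adjoin k {f} :=
        add_mem (IntermediateField.mem_adjoin_simple_self k f)
          (IntermediateField.algebraMap_mem _ c)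
      rwa [← hX] at h1
  obtain ⟨o, h1, h2⟩ := one_zero hT hadj
  rw [h2 v hv]
  exact h1

/-- the pole of a polynomial -/
theorem ord_poly {o : Place k (RatFunc k)} (ho : ord o (RatFunc.X : RatFunc k) = -1)
    (ho' : ∀ v : Place k (RatFunc k), v ≠ o → (RatFunc.X : RatFunc k) ∈ v.ring) (p : k[X])
    (hp : p ≠ 0) (v : Place k (RatFunc k)) :
    0 ≤ ord v (algebraMap k[X] (RatFunc k) p) + if v = o then (p.natDegree : ℤ) else 0 := by
  have hf : algebraMap k[X] (RatFunc k) p ≠ 0 := by
    rwa [Ne, map_eq_zero_iff _ (RatFunc.algebraMap_injective k)]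
  have hconst : ∀ (v : Place k (RatFunc k)) (c : k), algebraMap k (RatFunc k) c ∈ v.ring :=
    fun v c => (Place.at_const (v := v) c).mem
  have hsum : algebraMap k[X] (RatFunc k) p = ∑ i ∈ Finset.range (p.natDegree + 1),
      algebraMap k (RatFunc k) (p.coeff i) * RatFunc.X ^ i := by
    conv_lhs => rw [p.as_sum_range_C_mul_X_pow]
    rw [map_sum]
    refine Finset.sum_congr rfl fun i _ => ?_
    rw [map_mul, map_pow, RatFunc.algebraMap_X, RatFunc.algebraMap_C]
    rfl
  split_ifs with h
  · subst h
    have hX0 : (RatFunc.X : RatFunc k) ≠ 0 := RatFunc.X_ne_zero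
    have hinv : (RatFunc.X : RatFunc k)⁻¹ ∈ v.ring := by
      rw [mem_iff_ord hLn (inv_ne_zero hX0), ord_inv hLn, ho]
      norm_num
    have h1 : (RatFunc.X : RatFunc k)⁻¹ ^ p.natDegree * algebraMap k[X] (RatFunc k) p ∈ v.ring := by
      rw [hsum, Finset.mul_sum]
      refine sum_mem fun i hi => ?_
      have hi' : i ≤ p.natDegree := Nat.lt_succ_iff.1 (Finset.mem_range.1 hi)
      have h2 : (RatFunc.X : RatFunc k)⁻¹ ^ p.natDegree * (algebraMap k (RatFunc k) (p.coeff i) *
          RatFunc.X ^ i) = algebraMap k (RatFunc k) (p.coeff i) *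
          (RatFunc.X : RatFunc k)⁻¹ ^ (p.natDegree - i) := by
        have h3 : p.natDegree = (p.natDegree - i) + i := by omega
        conv_lhs => rw [h3, pow_add]
        rw [inv_pow, inv_pow]
        field_simp
      rw [h2]
      exact mul_mem (hconst v _) (pow_mem hinv _)
    rw [mem_iff_ord hLn (mul_ne_zero (pow_ne_zero _ (inv_ne_zero hX0)) hf), ord_mul hLn v
      (pow_ne_zero _ (inv_ne_zero hX0)) hf, ord_pow hLn, ord_inv hLn, ho] at h1
    linarith
  · rw [add_zero, ← mem_iff_ord hLn hf, hsum]
    exact sum_mem fun i _ => mul_mem (hconst v _) (pow_mem (ho' v h) _)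

omit [IsAlgClosed k] [CharZero k] in
private theorem deg_add (D E : Place k (RatFunc k) →₀ ℤ) : deg (D + E) = deg D + deg E := by
  unfold deg
  rw [Finsupp.sum_add_index' (fun _ => rfl) (fun _ _ _ => rfl)]

omit [IsAlgClosed k] [CharZero k] in
private theorem deg_single (o : Place k (RatFunc k)) (n : ℤ) : deg (Finsupp.single o n) = n := by
  unfold deg
  rw [Finsupp.sum_single_index rfl]

/-- **Riemann's inequality for the line.** -/
theorem riemann_line : Riemann (hLn (k := k)) 0 := by
  obtain ⟨g, hg⟩ := exists_genus (hLn (k := k))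
  obtain ⟨o, ho, ho'⟩ := exists_inf (k := k)
  intro D
  refine ⟨(hg D).1, ?_⟩
  -- a polynomial with the finite part of the divisor
  let c : Place k (RatFunc k) → k := fun v => val v RatFunc.X
  have hc : ∀ v, v ≠ o → v.At RatFunc.X (c v) := fun v hv => at_val hLn (ho' v hv)
  let p : k[X] := ∏ v ∈ D.support.erase o, (X - C (c v)) ^ (D v).toNat
  have hp : p ≠ 0 := Finset.prod_ne_zero_iff.2 fun v _ =>
    pow_ne_zero _ (X_sub_C_ne_zero _)
  set q : RatFunc k := algebraMap k[X] (RatFunc k) p with hq
  have hq0 : q ≠ 0 := by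
    rwa [hq, Ne, map_eq_zero_iff _ (RatFunc.algebraMap_injective k)]
  have hqv : ∀ v, v ≠ o → D v ≤ ord v q := by
    intro v hv
    by_cases hvD : v ∈ D.support
    · have h1 : p = (X - C (c v)) ^ (D v).toNat *
          ∏ w ∈ (D.support.erase o).erase v, (X - C (c w)) ^ (D w).toNat :=
        (Finset.mul_prod_erase _ _ (Finset.mem_erase.2 ⟨hv, hvD⟩)).symm
      have h2 : ∏ w ∈ (D.support.erase o).erase v, (X - C (c w)) ^ (D w).toNat ≠ 0 :=
        Finset.prod_ne_zero_iff.2 fun w _ => pow_ne_zero _ (X_sub_C_ne_zero _)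
      have h3 := ord_poly ho ho' _ h2 v
      rw [if_neg hv, add_zero] at h3
      have h4 : algebraMap k[X] (RatFunc k) (X - C (c v)) =
          RatFunc.X - algebraMap k (RatFunc k) (c v) := by
        rw [map_sub, RatFunc.algebraMap_X, RatFunc.algebraMap_C]
        rfl
      have h5 : algebraMap k[X] (RatFunc k) (X - C (c v)) ≠ 0 := by
        rw [Ne, map_eq_zero_iff _ (RatFunc.algebraMap_injective k)]
        exact X_sub_C_ne_zero _
      have h6 : algebraMap k[X] (RatFunc k)
          (∏ w ∈ (D.support.erase o).erase v, (X - C (c w)) ^ (D w).toNat) ≠ 0 := by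
        rwa [Ne, map_eq_zero_iff _ (RatFunc.algebraMap_injective k)]
      rw [hq, h1, map_mul, map_pow, ord_mul hLn v (pow_ne_zero _ h5) h6, ord_pow hLn, h4,
        exists_fin (c v) v (hc v hv)]
      have h7 := Int.self_le_toNat (D v)
      linarith
    · have h3 := ord_poly ho ho' p hp v
      rw [if_neg hv, add_zero] at h3
      rw [Finsupp.notMem_support_iff.1 hvD]
      exact h3
  -- the larger divisor
  let N : ℕ := (D o - ord o q).toNat
  let E : Place k (RatFunc k) →₀ ℤ := dv hLn q + Finsupp.single o (N : ℤ)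
  have hE : ∀ v, E v = ord v q + if v = o then (N : ℤ) else 0 := by
    intro v
    change dv hLn q v + Finsupp.single o (N : ℤ) v = _
    rw [dv_apply, Finsupp.single_apply]
    congr 1
    simp [eq_comm]
  have hDE : ∀ v, D v ≤ E v := by
    intro v
    rw [hE]
    split_ifs with h
    · subst h
      have := Int.self_le_toNat (D v - ord v q)
      change D v ≤ ord v q + ((D v - ord v q).toNat : ℤ)
      linarith
    · rw [add_zero]
      exact hqv v h
  have hdegE : deg E = N := by
    change deg (dv hLn q + Finsupp.single o (N : ℤ)) = _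
    rw [deg_add, deg_dv, deg_single, zero_add]
  have hfinE : FiniteDimensional k (LD hLn E) := (hg E).1
  -- polynomials of degree at most `N`
  have hdim : N + 1 ≤ finrank k (LD (hLn (k := k)) E) := by
    have hmem : ∀ s : degreeLT k (N + 1), algebraMap k[X] (RatFunc k) s.1 / q ∈
        LD (hLn (k := k)) E := by
      intro s
      rw [mem_LD]
      intro h0 v
      have hs0 : s.1 ≠ 0 := by
        intro h
        apply h0
        rw [h, map_zero, zero_div]
      have hs1 : algebraMap k[X] (RatFunc k) s.1 ≠ 0 := by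
        rwa [Ne, map_eq_zero_iff _ (RatFunc.algebraMap_injective k)]
      have hsd : s.1.natDegree ≤ N := by
        have h1 := (mem_degreeLT.1 s.2)
        rw [← natDegree_lt_iff_degree_lt hs0] at h1
        omega
      rw [div_eq_mul_inv, ord_mul hLn v hs1 (inv_ne_zero hq0), ord_inv hLn, hE]
      have h1 := ord_poly ho ho' s.1 hs0 v
      split_ifs at h1 ⊢
      · have : ((s.1.natDegree : ℕ) : ℤ) ≤ N := by exact_mod_cast hsd
        linarith
      · linarith
    let Ψ : degreeLT k (N + 1) →ₗ[k] LD (hLn (k := k)) E :=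
      { toFun := fun s => ⟨algebraMap k[X] (RatFunc k) s.1 / q, hmem s⟩
        map_add' := fun s t => Subtype.ext (by
          change algebraMap k[X] (RatFunc k) (s.1 + t.1) / q = _
          rw [map_add, add_div]
          rfl)
        map_smul' := fun a s => Subtype.ext (by
          change algebraMap k[X] (RatFunc k) (a • s.1) / q =
            a • (algebraMap k[X] (RatFunc k) s.1 / q)
          rw [Algebra.smul_def, map_mul, ← IsScalarTower.algebraMap_apply, mul_div_assoc,
            ← Algebra.smul_def]) }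
    have hinj : Function.Injective Ψ := by
      intro s t h
      have h1 : algebraMap k[X] (RatFunc k) s.1 / q = algebraMap k[X] (RatFunc k) t.1 / q :=
        congrArg Subtype.val h
      exact Subtype.ext (RatFunc.algebraMap_injective k ((div_left_inj' hq0).1 h1))
    have h1 := LinearMap.finrank_le_finrank_of_injective hinj
    rwa [(degreeLTEquiv k (N + 1)).finrank_eq, finrank_fin_fun] at h1
  -- comparison
  have hLE : FiniteDimensional k (LDu fun v => E v) := by
    rw [← LD_eq_LDu hLn]
    exact hfinE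
  have h1 := finrank_LDu_le hLn (E.support ∪ D.support) (D := fun v => E v) (D' := fun v => D v)
    (fun v hv => by
      rw [Finset.mem_union, not_or] at hv
      rw [Finsupp.notMem_support_iff.1 hv.1, Finsupp.notMem_support_iff.1 hv.2]) hDE
  rw [← LD_eq_LDu hLn, ← LD_eq_LDu hLn, Finset.sum_sub_distrib] at h1
  have h2 : ∀ (F : Place k (RatFunc k) →₀ ℤ), F.support ⊆ E.support ∪ D.support →
      ∑ v ∈ E.support ∪ D.support, F v = deg F := by
    intro F hF
    unfold deg
    rw [Finsupp.sum_of_support_subset F hF _ fun _ _ => rfl]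
  rw [h2 E Finset.subset_union_left, h2 D Finset.subset_union_right, hdegE] at h1
  have h3 : ((N + 1 : ℕ) : ℤ) ≤ finrank k (LD (hLn (k := k)) E) := by exact_mod_cast hdim
  push_cast at h3 ⊢
  linarith

/-- **An elliptic curve over `k(t)` with good reduction everywhere is constant.** -/
theorem exists_bad_line {a b : RatFunc k} (hd : b ^ 2 ≠ 4 * a ^ 3)
    (hvar : ¬ ∃ (f : RatFunc k) (a₀ b₀ : k), a = algebraMap k (RatFunc k) a₀ * f ^ 4 ∧
      b = algebraMap k (RatFunc k) b₀ * f ^ 6) : ∃ δ : Place k (RatFunc k), GT.BadAt δ a b := by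
  by_contra hcon
  push Not at hcon
  apply hvar
  have h1 : ∀ δ : Place k (RatFunc k), ∃ u : RatFunc k, u ≠ 0 ∧ u ^ 4 * a ∈ δ.ring ∧
      u ^ 6 * b ∈ δ.ring ∧ (u ^ 12 * (b ^ 2 - 4 * a ^ 3))⁻¹ ∈ δ.ring := by
    intro δ
    have h2 := hcon δ
    unfold GT.BadAt at h2
    push Not at h2
    obtain ⟨u, hu, h3⟩ := h2
    exact ⟨u, hu, h3.1, h3.2.1, h3.2.2⟩
  choose u hu0 hua hub hud using h1
  set Δ : RatFunc k := b ^ 2 - 4 * a ^ 3 with hΔ
  have hΔ0 : Δ ≠ 0 := sub_ne_zero.2 hd
  have hord : ∀ δ : Place k (RatFunc k), ord δ Δ = -(12 * ord δ (u δ)) := by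
    intro δ
    have h0 : (u δ) ^ 12 * Δ ≠ 0 := mul_ne_zero (pow_ne_zero _ (hu0 δ)) hΔ0
    have h2 : (u δ) ^ 12 * Δ ∈ δ.ring := by
      have h3 : (u δ) ^ 12 * Δ = ((u δ) ^ 6 * b) ^ 2 - 4 * ((u δ) ^ 4 * a) ^ 3 := by
        rw [hΔ]
        ring
      rw [h3]
      have h4 : (4 : RatFunc k) ∈ δ.ring := by
        have := (Place.at_const (v := δ) (4 : k)).mem
        rwa [map_ofNat] at this
      exact sub_mem (pow_mem (hub δ) 2) (mul_mem h4 (pow_mem (hua δ) 3))
    have h3 := (ord_eq_zero_iff hLn h0).2 ⟨h2, hud δ⟩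
    rw [ord_mul hLn δ (pow_ne_zero _ (hu0 δ)) hΔ0, ord_pow hLn] at h3
    push_cast at h3
    linarith
  -- the divisor of `u`
  have hfin : {δ : Place k (RatFunc k) | ord δ (u δ) ≠ 0}.Finite := by
    refine (finite_ord hLn Δ).subset fun δ hδ => ?_
    simp only [Set.mem_ofPred_eq] at hδ ⊢
    rw [hord]
    omega
  let E : Place k (RatFunc k) →₀ ℤ := Finsupp.ofSupportFinite (fun δ => ord δ (u δ)) hfin
  have hE : ∀ δ, E δ = ord δ (u δ) := fun _ => rfl
  have hdeg : ∀ F : Place k (RatFunc k) →₀ ℤ, ∀ T : Finset (Place k (RatFunc k)), F.support ⊆ T →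
      deg F = ∑ v ∈ T, F v := by
    intro F T hT
    unfold deg
    rw [Finsupp.sum_of_support_subset F hT _ fun _ _ => rfl]
  have hdE : deg E = 0 := by
    have h2 := deg_dv hLn Δ
    rw [hdeg _ (E.support ∪ (dv hLn Δ).support) Finset.subset_union_right] at h2
    rw [hdeg E (E.support ∪ (dv hLn Δ).support) Finset.subset_union_left]
    have h3 : ∑ v ∈ E.support ∪ (dv hLn Δ).support, (dv hLn Δ) v =
        -(12 * ∑ v ∈ E.support ∪ (dv hLn Δ).support, E v) := by
      rw [Finset.mul_sum, ← Finset.sum_neg_distrib]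
      exact Finset.sum_congr rfl fun v _ => by rw [dv_apply, hord, hE]
    omega
  -- a function with this divisor
  obtain ⟨f, hf0, hf⟩ : ∃ f : RatFunc k, f ≠ 0 ∧ ∀ v, 0 ≤ ord v f + (-E) v := by
    have h2 := (riemann_line (k := k) (-E))
    have h3 : deg (-E) = 0 := by
      have h4 := deg_add E (-E)
      rw [add_neg_cancel, hdE] at h4
      have h5 : deg (0 : Place k (RatFunc k) →₀ ℤ) = 0 := by
        unfold deg
        rw [Finsupp.sum_zero_index]
      omega
    have h4 : 0 < finrank k (LD (hLn (k := k)) (-E)) := by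
      have := h2.2
      rw [h3] at this
      push_cast at this
      omega
    have := h2.1
    obtain ⟨x, hx⟩ := (Module.finrank_pos_iff_exists_ne_zero (R := k)).1 h4
    refine ⟨x.1, fun h => hx (Subtype.ext h), fun v => ?_⟩
    exact (mem_LD.1 x.2) (fun h => hx (Subtype.ext h)) v
  have hfE : ∀ v, ord v f = E v := by
    have h2 : ∀ v, E v ≤ ord v f := by
      intro v
      have := hf v
      rw [Finsupp.neg_apply] at this
      linarith
    have h3 := deg_dv hLn f
    rw [hdeg _ (E.support ∪ (dv hLn f).support) Finset.subset_union_right] at h3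
    rw [hdeg E (E.support ∪ (dv hLn f).support) Finset.subset_union_left] at hdE
    have h4 : ∑ v ∈ E.support ∪ (dv hLn f).support, ((dv hLn f) v - E v) = 0 := by
      rw [Finset.sum_sub_distrib, h3, hdE, sub_zero]
    have h5 := (Finset.sum_eq_zero_iff_of_nonneg (fun v _ => by
      rw [dv_apply]
      linarith [h2 v])).1 h4
    intro v
    by_cases hv : v ∈ E.support ∪ (dv hLn f).support
    · have := h5 v hv
      rw [dv_apply] at this
      linarith
    · rw [Finset.mem_union, not_or] at hv
      rw [Finsupp.notMem_support_iff.1 hv.1, ← dv_apply hLn f v,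
        Finsupp.notMem_support_iff.1 hv.2]
  have hreg : ∀ (e : ℕ) (g : RatFunc k), (∀ δ : Place k (RatFunc k), u δ ^ e * g ∈ δ.ring) →
      ∃ g₀ : k, f ^ e * g = algebraMap k (RatFunc k) g₀ := by
    intro e g hg
    by_cases hg0 : g = 0
    · exact ⟨0, by rw [hg0, mul_zero, map_zero]⟩
    refine const_of_regular hLn fun v => ?_
    have h2 := hg v
    rw [mem_iff_ord hLn (mul_ne_zero (pow_ne_zero _ (hu0 v)) hg0), ord_mul hLn v
      (pow_ne_zero _ (hu0 v)) hg0, ord_pow hLn] at h2
    rw [mem_iff_ord hLn (mul_ne_zero (pow_ne_zero _ hf0) hg0), ord_mul hLn v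
      (pow_ne_zero _ hf0) hg0, ord_pow hLn, hfE v, hE v]
    exact h2
  obtain ⟨a₀, ha₀⟩ := hreg 4 a hua
  obtain ⟨b₀, hb₀⟩ := hreg 6 b hub
  refine ⟨f⁻¹, a₀, b₀, ?_, ?_⟩
  · rw [← ha₀]
    field_simp
  · rw [← hb₀]
    field_simp

end Pool.Agent.KEx
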