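import Pool.Agent.KEx.Defs

/-!
# Embeddings which fix `t` are restrictions of automorphisms over `k(t)`
-/

set_option autoImplicit false

noncomputable section

namespace Pool.Agent.KEx

open Pool.Agent.ZCyc Pool.Agent.Dess
open Pool.Agent.VFP (Om tt)
open scoped Classical

variable {k : Type} [Field k]

/-- the elements of `k(t)` -/
theorem algMap_rat (r : RatFunc k) : algebraMap (RatFunc k) (Om k) r =
    Polynomial.aeval (tt k) r.num / Polynomial.aeval (tt k) r.denom := by
  have h0 : ∀ p : Polynomial k,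
      algebraMap (RatFunc k) (Om k) (algebraMap (Polynomial k) (RatFunc k) p) =
        Polynomial.aeval (tt k) p := by
    intro p
    change _ = Polynomial.aeval (algebraMap (RatFunc k) (Om k) RatFunc.X) p
    rw [Polynomial.aeval_algebraMap_apply]
    congr 1
    have h1 : (Polynomial.aeval (RatFunc.X : RatFunc k)) = IsScalarTower.toAlgHom k (Polynomial k)
        (RatFunc k) := by
      apply Polynomial.algHom_ext
      rw [Polynomial.aeval_X]
      exact RatFunc.algebraMap_X.symm
    rw [h1]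
    rfl
  rw [← h0, ← h0, ← map_div₀, RatFunc.num_div_denom]

theorem exists_auto (K : IntermediateField k (Om k)) (htt : tt k ∈ K) (σ : K →ₐ[k] Om k)
    (hσ : σ ⟨tt k, htt⟩ = tt k) : ∃ g : Om k ≃ₐ[RatFunc k] Om k, ∀ x : K, g x = σ x := by
  have hco : ∀ p : Polynomial k, Polynomial.aeval (tt k) p =
      ((Polynomial.aeval (⟨tt k, htt⟩ : K) p : K) : Om k) := fun p =>
    Polynomial.aeval_algHom_apply K.val (⟨tt k, htt⟩ : K) p
  have hpoly : ∀ p : Polynomial k, Polynomial.aeval (tt k) p ∈ K := fun p => by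
    rw [hco]
    exact (Polynomial.aeval (⟨tt k, htt⟩ : K) p).2
  have hmem : ∀ r : RatFunc k, algebraMap (RatFunc k) (Om k) r ∈ K := by
    intro r
    rw [algMap_rat]
    exact div_mem (hpoly _) (hpoly _)
  let K' : IntermediateField (RatFunc k) (Om k) :=
    { K.toSubfield with algebraMap_mem' := hmem }
  have hval : ∀ (p : Polynomial k), σ ⟨Polynomial.aeval (tt k) p, hpoly p⟩ =
      Polynomial.aeval (tt k) p := by
    intro p
    have h2 := Polynomial.aeval_algHom_apply σ (⟨tt k, htt⟩ : K) p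
    rw [hσ] at h2
    have h3 : (⟨Polynomial.aeval (tt k) p, hpoly p⟩ : K) =
        Polynomial.aeval (⟨tt k, htt⟩ : K) p := Subtype.ext (hco p)
    rw [h3]
    exact h2.symm
  have hc : ∀ r : RatFunc k, σ ⟨algebraMap (RatFunc k) (Om k) r, hmem r⟩ =
      algebraMap (RatFunc k) (Om k) r := by
    intro r
    have h4 : (⟨algebraMap (RatFunc k) (Om k) r, hmem r⟩ : K) =
        ⟨Polynomial.aeval (tt k) r.num, hpoly _⟩ / ⟨Polynomial.aeval (tt k) r.denom, hpoly _⟩ := by
      apply Subtype.ext
      exact algMap_rat r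
    rw [h4, map_div₀, hval, hval]
    exact (algMap_rat r).symm
  let σ' : K' →ₐ[RatFunc k] Om k :=
    { toFun := fun x => σ ⟨x.1, x.2⟩
      map_one' := map_one σ
      map_zero' := map_zero σ
      map_mul' := fun x y => map_mul σ ⟨x.1, x.2⟩ ⟨y.1, y.2⟩
      map_add' := fun x y => map_add σ ⟨x.1, x.2⟩ ⟨y.1, y.2⟩
      commutes' := fun r => hc r }
  refine ⟨AlgEquiv.ofBijective (σ'.liftNormal (Om k))
    (Algebra.IsAlgebraic.algHom_bijective _), fun x => ?_⟩
  exact AlgHom.liftNormal_commutes σ' (Om k) (⟨x.1, x.2⟩ : K')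

end Pool.Agent.KEx
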