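import Pool.Agent.KSup.Cor

/-!
# The sum of the conjugates of a point is constant
-/

set_option autoImplicit false

noncomputable section

namespace Pool.Agent.KEx

open Pool.Agent.ZCyc Pool.Agent.Dess Pool.Agent.TInc Pool.Agent.GT
open Pool.Agent.VFP (Om tt)
open scoped Classical LinearAlgebra.Projectivization

variable {k : Type} [Field k] [IsAlgClosed k] [CharZero k] {m : ℕ}
  {X : Set (MvPolynomial (Fin (m + 1)) k)}

/-- The sum of the classes of the values at a place `V` of `Om k` of the conjugates over `k(ψ)` of a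
point `x` with coordinates in the function field `K` of a curve: it does not depend on `V`. -/
theorem avg_const (hX : Hom X) {K : Type} [Field K] [Algebra k K] (hK : IsCurve k K) {ψ : K}
    (hψ : Transcendental k ψ) (x : Pt X K) (E : Finset (K →ₐ[k] Om k))
    (hE : ∀ σ, σ ∈ E ↔ σ ψ = tt k) : ∃ C : CH X Unit, ∀ V : Place k (Om k),
      ∑ σ ∈ E, lim1 hX V (Finsupp.single (x.map σ hX) 1) = C := by
  have : HasRes k K := hasRes_of_isCurve hK
  have htt : Transcendental k (tt k) := Pool.Agent.VFP.tt_transc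
  let G : Place k K → CH X Unit := fun c => lim hX c (Finsupp.single (fun _ => x) 1)
  have hψ0 : ψ ≠ 0 := by
    intro h
    apply hψ
    rw [h]
    exact isAlgebraic_zero
  -- the places below
  have hlim : ∀ V : Place k (Om k), ∃ γ : (K →ₐ[k] Om k) → Place k K,
      (∀ σ ∈ E, (γ σ).ring = V.ring.comap σ.toRingHom) ∧
      ∑ σ ∈ E, lim1 hX V (Finsupp.single (x.map σ hX) 1) = ∑ σ ∈ E, G (γ σ) := by
    intro V
    choose γ hγ using fun σ => exists_below hK V σ
    refine ⟨γ, fun σ _ => (hγ σ).symm, ?_⟩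
    refine Finset.sum_congr rfl fun σ _ => ?_
    have h1 := lim_map (ι := Unit) hX (hγ σ) (Finsupp.single (fun _ => x) 1)
    rw [Finsupp.mapDomain_single] at h1
    change lim hX V (Finsupp.lmapDomain ℚ ℚ (fun x _ => x) (Finsupp.single (x.map σ hX) 1)) = _
    rw [Finsupp.lmapDomain_apply, Finsupp.mapDomain_single]
    exact h1
  obtain ⟨Tp, hTp⟩ := EFC.exists_T_pole hK ψ
  refine ⟨∑ c ∈ Tp, (-ord c ψ : ℚ) • G c, fun V => ?_⟩
  obtain ⟨γ, hγ, h2⟩ := hlim V
  rw [h2]
  by_cases hV : tt k ∈ V.ring
  · obtain ⟨a, ha⟩ := HasRes.res V _ hV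
    obtain ⟨T, hT⟩ := EFC.exists_T hK hψ a
    rw [EFC.sum_emb hK hψ htt ha G hE hγ hT]
    -- the divisor of `ψ - a`
    have hne : ψ - algebraMap k K a ≠ 0 := by
      intro h
      apply hψ
      rw [sub_eq_zero.1 h]
      exact isAlgebraic_algebraMap a
    have h3 := sum_lim (ι := Unit) hX hK (Finsupp.single (fun _ => x) 1) hne (dv hK _)
      fun v => ord_hasOrd hK v hne
    have hmemT : ∀ c, c ∈ T ↔ 0 < ord c (ψ - algebraMap k K a) := by
      intro c
      rw [hT, ← vanishes_iff_ord hK hne]
      rfl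
    have hmemP : ∀ c, c ∈ Tp ↔ ord c (ψ - algebraMap k K a) < 0 := by
      intro c
      rw [hTp, ← not_le, ← mem_iff_ord hK hne]
      constructor
      · intro h h'
        apply h
        have h4 := add_mem h' (c.const_mem a)
        rwa [sub_add_cancel] at h4
      · intro h h'
        exact h (sub_mem h' (c.const_mem a))
    have hord : ∀ c ∈ Tp, ord c (ψ - algebraMap k K a) = ord c ψ := by
      intro c hc
      have h4 : ord c ψ < 0 := by
        rw [hTp, mem_iff_ord hK hψ0, not_le] at hc
        exact hc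
      have h5 := ord_add_eq hK (v := c) (f := ψ) (g := -algebraMap k K a) hψ0 fun _ => by
        rw [ord_neg hK, ord_const hK]
        exact h4
      rw [← sub_eq_add_neg] at h5
      exact h5.2
    have h6 : ∀ c, c ∈ (dv hK (ψ - algebraMap k K a)).support ↔
        ord c (ψ - algebraMap k K a) ≠ 0 := fun c => Finsupp.mem_support_iff
    have h7 : (dv hK (ψ - algebraMap k K a)).support = T ∪ Tp := by
      ext c
      rw [h6, Finset.mem_union, hmemT, hmemP]
      omega
    have h8 : Disjoint T Tp := by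
      rw [Finset.disjoint_left]
      intro c h h'
      rw [hmemT] at h
      rw [hmemP] at h'
      omega
    rw [Finsupp.sum, h7, Finset.sum_union h8] at h3
    have h9 : ∑ c ∈ Tp, ((dv hK (ψ - algebraMap k K a) c : ℤ) : ℚ) • lim hX c
        (Finsupp.single (fun _ : Unit => x) (1 : ℚ)) = -∑ c ∈ Tp, (-ord c ψ : ℚ) • G c := by
      rw [← Finset.sum_neg_distrib]
      refine Finset.sum_congr rfl fun c hc => ?_
      have h10 : (dv hK (ψ - algebraMap k K a) c : ℤ) = ord c ψ := hord c hc
      rw [h10, ← neg_smul, neg_neg]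
    rw [h9] at h3
    exact sub_eq_zero.1 (by rw [sub_eq_add_neg]; exact h3)
  · exact EFC.sum_emb_pole hK hψ htt hV G hE hγ hTp

end Pool.Agent.KEx
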