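import Pool.Agent.KEx.Defs

/-!
# The conjugates of the map have the same limit homomorphisms
-/

set_option autoImplicit false

noncomputable section

namespace Pool.Agent.KEx

open Pool.Agent.ZCyc Pool.Agent.Dess Pool.Agent.GT Pool.Agent.KAll Polynomial
open Pool.Agent.VFP (Om tt)
open scoped Classical LinearAlgebra.Projectivization

variable {k : Type} [Field k] {m : ℕ} {X : Set (MvPolynomial (Fin (m + 1)) k)}

/-- the coordinates of the conjugate map -/
theorem map_co (τ : Om k ≃ₐ[RatFunc k] Om k) (M : Mp (Om k) m) (x y : Om k) (i : Fin (m + 1)) :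
    (M.map (τ : Om k →+* Om k)).co (τ x) (τ y) i = τ (M.co x y i) := by
  have h : ∀ (p : (Om k)[X]) (z : Om k), (p.map (τ : Om k →+* Om k)).eval (τ z) = τ (p.eval z) :=
    fun p z => by
      rw [Polynomial.eval_map]
      exact Polynomial.eval₂_at_apply (τ : Om k →+* Om k) z
  change ((M.G i).map (τ : Om k →+* Om k)).eval (τ x) +
    ((M.H i).map (τ : Om k →+* Om k)).eval (τ x) * τ y =
    τ ((M.G i).eval x + (M.H i).eval x * y)
  rw [h, h, map_add, map_mul]

variable [IsAlgClosed k] [CharZero k] {α B : Om k} {M : Mp (Om k) m} {r : ℕ}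

omit [IsAlgClosed k] [CharZero k] in
/-- the coefficients are fixed -/
theorem fix_coef (h : IsFib X α B M r) (τ : Om k ≃ₐ[RatFunc k] Om k) : τ α = α ∧ τ B = B := by
  obtain ⟨a, b, -, -, ha, hb⟩ := h.coef
  have key : ∀ p : k[X], τ (Polynomial.aeval (tt k) p) = Polynomial.aeval (tt k) p := by
    intro p
    have h1 : (τ.restrictScalars k) (Polynomial.aeval (tt k) p) =
        Polynomial.aeval ((τ.restrictScalars k) (tt k)) p := by
      rw [Polynomial.aeval_algHom_apply]
    have h2 : (τ.restrictScalars k) (tt k) = tt k := by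
      change τ (algebraMap (RatFunc k) (Om k) RatFunc.X) = _
      exact τ.commutes _
    rw [h2] at h1
    exact h1
  exact ⟨by rw [ha]; exact key a, by rw [hb]; exact key b⟩

theorem ok_map (h : IsFib X α B M r) (τ : Om k ≃ₐ[RatFunc k] Om k) :
    (M.map (τ : Om k →+* Om k)).Ok α B X :=
  ok_conj (τ.restrictScalars k) (fix_coef h τ).1 (fix_coef h τ).2 rfl h.ok

/-- the images of the points under the conjugate map -/
theorem cyc_conj (h : IsFib X α B M r) (τ : Om k ≃ₐ[RatFunc k] Om k) :
    ∃ A : (Ec α B).Point, ∀ P : (Ec α B).Point, (M.map (τ : Om k →+* Om k)).Ns P → M.Ns (P + A) →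
      cyc h.hom (ok_map h τ) P = cyc h.hom h.ok (P + A) := by
  obtain ⟨A, hA⟩ := h.conj τ
  refine ⟨A, fun P hP hQ => ?_⟩
  obtain ⟨u, w, hu, rfl⟩ : ∃ u w h, P = .some u w h := by
    cases P with
    | zero => exact hP.elim
    | some u w h => exact ⟨u, w, h, rfl⟩
  obtain ⟨x, rfl⟩ := τ.surjective u
  obtain ⟨y, rfl⟩ := τ.surjective w
  obtain ⟨x', y', h', e⟩ : ∃ x' y' h', (.some (τ x) (τ y) hu : (Ec α B).Point) + A =
      .some x' y' h' := by
    revert hQ
    generalize (.some (τ x) (τ y) hu : (Ec α B).Point) + A = R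
    intro hQ
    cases R with
    | zero => exact hQ.elim
    | some x y h => exact ⟨x, y, h, rfl⟩
  rw [e] at hQ ⊢
  have hQ' : M.co x' y' ≠ 0 := hQ
  obtain ⟨c, hc⟩ := hA x y x' y' hu h' e hQ'
  have hco : ∀ i, (M.map (τ : Om k →+* Om k)).co (τ x) (τ y) i = c * M.co x' y' i := fun i => by
    rw [map_co, hc]
  have h1 : cyc h.hom (ok_map h τ) (.some (τ x) (τ y) hu) =
      Finsupp.single (phi h.hom (ok_map h τ) (.some (τ x) (τ y) hu) hP) 1 := dif_pos hP
  have h2 : cyc h.hom h.ok (.some x' y' h') =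
      Finsupp.single (phi h.hom h.ok (.some x' y' h') hQ) 1 := dif_pos hQ
  rw [h1, h2]
  congr 1
  apply Subtype.ext
  refine (Projectivization.mk_eq_mk_iff' _ _ _ _ _).2 ⟨c, ?_⟩
  funext i
  exact (hco i).symm

/-- **The conjugates of the map have the same limit homomorphisms.** -/
theorem hV_map (h : IsFib X α B M r) (τ : Om k ≃ₐ[RatFunc k] Om k) (v : Place k (Om k))
    (P : (Ec α B).Point) : hV h.hom (ok_map h τ) v P = hV h.hom h.ok v P := by
  obtain ⟨A, hA⟩ := cyc_conj h τ
  have hinf := infinite_points h.ok.disc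
  have hM' := ok_map h τ
  obtain ⟨Q, hQ⟩ := (((finite_bad (α := α) (B := B) hM'.ne).union
    ((finite_bad (α := α) (B := B) hM'.ne).preimage (f := fun Q => P + Q)
      (add_right_injective P).injOn)).union
    (((finite_bad (α := α) (B := B) h.ok.ne).preimage (f := fun Q => Q + A)
      (add_left_injective A).injOn).union
    ((finite_bad (α := α) (B := B) h.ok.ne).preimage (f := fun Q => P + (Q + A))
      (fun Q _ Q' _ e => add_left_injective A (add_right_injective P e))))).exists_notMem
  have h1 : (M.map (τ : Om k →+* Om k)).Ns Q := by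
    by_contra hc
    exact hQ (Or.inl (Or.inl hc))
  have h2 : (M.map (τ : Om k →+* Om k)).Ns (P + Q) := by
    by_contra hc
    exact hQ (Or.inl (Or.inr hc))
  have h3 : M.Ns (Q + A) := by
    by_contra hc
    exact hQ (Or.inr (Or.inl hc))
  have h4 : M.Ns (P + (Q + A)) := by
    by_contra hc
    exact hQ (Or.inr (Or.inr hc))
  have e1 := hA Q h1 h3
  have e2 := hA (P + Q) h2 (by rwa [add_assoc])
  rw [← hV_spec h.hom hM' v h1 h2, ← hV_spec h.hom h.ok v h3 h4]
  unfold lmp
  rw [e1, e2, add_assoc]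

end Pool.Agent.KEx
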