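import Pool.Agent.KSup.Even

/-!
# Fibrations in curves of genus one over the line
-/

set_option autoImplicit false

noncomputable section

namespace Pool.Agent.KAll

open Pool.Agent.ZCyc Pool.Agent.Dess
open Pool.Agent.VFP (Om tt)
open scoped Classical LinearAlgebra.Projectivization

variable {k : Type} [Field k] {m : ℕ}

/-- The family of elliptic curves `E : y ^ 2 = x ^ 3 - 3 * α * x + B` over the algebraic closure `Om k`
of `k(t)`, with the map `φ(x, y) = G_i(x) + H_i(x) y` to the variety with the equations `X`, belongs to
a fibration in curves of genus one over the line (with the coordinate `t`) with the Jacobian `E`: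

* `α` and `B` are polynomials in `t` of the degrees at most `4 * r` and `6 * r`, `0 < r`;
* `E` is not constant: `α = a f ^ 4`, `B = b f ^ 6` is not possible for `f` in `k(t)` and `a`, `b` in
  `k`;
* the conjugates of `φ` differ from `φ` by translations: for every automorphism `τ` of `Om k` over
  `k(t)` there is a point `A` of `E` such that `τ(φ(P)) = φ(τ(P) + A)` for all points `P` of `E`
  (equality of points of the projective space). -/
structure IsFib (X : Set (MvPolynomial (Fin (m + 1)) k)) (α B : Om k) (M : GT.Mp (Om k) m) (r : ℕ) :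
    Prop extends Fam X α B M where
  pos : 0 < r
  coef : ∃ a b : Polynomial k, a.natDegree ≤ 4 * r ∧ b.natDegree ≤ 6 * r ∧
    α = Polynomial.aeval (tt k) a ∧ B = Polynomial.aeval (tt k) b
  var : ¬ ∃ (f : RatFunc k) (a b : k),
    α = algebraMap k (Om k) a * algebraMap (RatFunc k) (Om k) f ^ 4 ∧
    B = algebraMap k (Om k) b * algebraMap (RatFunc k) (Om k) f ^ 6
  conj : ∀ τ : Om k ≃ₐ[RatFunc k] Om k, ∃ A : (GT.Ec α B).Point,
    ∀ (x y x' y' : Om k) (h : (GT.Ec α B).Nonsingular (τ x) (τ y))
      (h' : (GT.Ec α B).Nonsingular x' y'),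
      WeierstrassCurve.Affine.Point.some (τ x) (τ y) h + A = .some x' y' h' → M.co x' y' ≠ 0 →
        ∃ c : Om k, ∀ i, τ (M.co x y i) = c * M.co x' y' i

/-- The variety is dominated by a surface with a fibration in curves of genus one over the line,
`χ(O) ≤ r`. -/
def Var.Fib : Var k → ℕ → Prop
  | .covered X, r => ∃ (α B : Om k) (M : GT.Mp (Om k) _), IsFib X α B M r
  | _, _ => False

end Pool.Agent.KAll
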