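import Pool.Agent.KEx.Model
import Pool.Agent.KEx.Line

/-!
# The cycles of degree zero on the fibres: the exact number
-/

set_option autoImplicit false

noncomputable section

namespace Pool.Agent.KEx

open Pool.Agent.ZCyc Pool.Agent.Dess Pool.Agent.GT Pool.Agent.KAll Pool.Agent.TInc Polynomial
open Pool.Agent.VFP (Om tt)
open scoped Classical LinearAlgebra.Projectivization

variable {k : Type} [Field k] {m : ℕ} {X : Set (MvPolynomial (Fin (m + 1)) k)}

/-- polynomials in `t` -/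
theorem aeval_tt (p : k[X]) : Polynomial.aeval (tt k) p =
    algebraMap (RatFunc k) (Om k) (algebraMap k[X] (RatFunc k) p) := by
  have h1 : (Polynomial.aeval (tt k) : k[X] →ₐ[k] Om k) =
      (IsScalarTower.toAlgHom k (RatFunc k) (Om k)).comp
        (IsScalarTower.toAlgHom k k[X] (RatFunc k)) := by
    refine Polynomial.algHom_ext ?_
    rw [Polynomial.aeval_X]
    change tt k = algebraMap (RatFunc k) (Om k) (algebraMap k[X] (RatFunc k) Polynomial.X)
    rw [RatFunc.algebraMap_X]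
    rfl
  exact DFunLike.congr_fun h1 p

variable [IsAlgClosed k] [CharZero k]

/-- **The cycles of degree zero on the fibres.** -/
theorem fib_hv {α B : Om k} {M : Mp (Om k) m} {r : ℕ} (h : IsFib X α B M r) {n : ℕ} (hn : r ≤ n)
    (w : Fin n → CH X Unit)
    (hw : ∀ j, w j ∈ Submodule.span ℚ (QRT.HVs h.hom h.ok)) : Alt (Ext h.hom n) w = 0 := by
  obtain ⟨a, b, ha, hb, hα, hB⟩ := h.coef
  have h' := h.var
  rw [aeval_tt] at hα hB
  subst hα hB
  set a₀ : RatFunc k := algebraMap k[X] (RatFunc k) a with ha₀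
  set b₀ : RatFunc k := algebraMap k[X] (RatFunc k) b with hb₀
  obtain ⟨d, θ, hd, hdα, hdB, hdh, hmp⟩ := exists_gd h.ok
  obtain ⟨o, ho, ho'⟩ := exists_inf (k := k)
  -- the bad place
  have hdisc : b₀ ^ 2 ≠ 4 * a₀ ^ 3 := by
    intro h1
    apply h.ok.disc
    rw [← map_pow, h1, map_mul, map_pow, map_ofNat]
  obtain ⟨δ, hδ⟩ := exists_bad_line hdisc (by
    rintro ⟨f, a₁, b₁, h1, h2⟩
    refine h' ⟨f, a₁, b₁, ?_, ?_⟩
    · rw [h1, map_mul, map_pow, ← IsScalarTower.algebraMap_apply]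
    · rw [h2, map_mul, map_pow, ← IsScalarTower.algebraMap_apply])
  -- the divisor
  have hbound : ∀ (e : ℕ) (p : k[X]), p.natDegree ≤ e * r →
      algebraMap k[X] (RatFunc k) p ≠ 0 → ∀ v, 0 ≤ ord v (algebraMap k[X] (RatFunc k) p) +
        e * (Finsupp.single o (r : ℤ) : Place k (RatFunc k) →₀ ℤ) v := by
    intro e p hp hne v
    have hp0 : p ≠ 0 := by
      rintro rfl
      exact hne (map_zero _)
    have h1 := ord_poly ho ho' p hp0 v
    rw [Finsupp.single_apply]
    by_cases hv : v = o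
    · subst hv
      rw [if_pos rfl] at h1 ⊢
      have h2 : ((p.natDegree : ℕ) : ℤ) ≤ e * r := by exact_mod_cast hp
      linarith
    · rw [if_neg hv, add_zero] at h1
      rw [if_neg (Ne.symm hv), mul_zero, add_zero]
      exact h1
  have hdeg : deg (Finsupp.single o (r : ℤ) : Place k (RatFunc k) →₀ ℤ) = r := by
    unfold deg
    rw [Finsupp.sum_single_index rfl]
  -- the number of the conjugates
  set N : ℕ := (d.rts (algebraMap (RatFunc k) (Om k))).card with hN
  have hθ : θ ∈ d.rts (algebraMap (RatFunc k) (Om k)) := by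
    have hint : IsIntegral (RatFunc k) θ := Algebra.IsIntegral.isIntegral θ
    rw [GD.rts, Multiset.mem_toFinset, hdh, Polynomial.mem_roots
      ((minpoly.monic hint).map _).ne_zero, Polynomial.IsRoot, Polynomial.eval_map]
    exact minpoly.aeval (RatFunc k) θ
  have hN0 : (N : ℚ) ≠ 0 := by
    rw [Nat.cast_ne_zero, hN, Finset.card_ne_zero]
    exact ⟨θ, hθ⟩
  set S : Set (CH X Unit) := {c | ∃ (v : Place k (Om k)) (P : (Ec (algebraMap (RatFunc k) (Om k) a₀)
    (algebraMap (RatFunc k) (Om k) b₀)).Point), c = N • hV h.hom h.ok v P} with hS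
  have hspan : Submodule.span ℚ (QRT.HVs h.hom h.ok) ≤ Submodule.span ℚ S := by
    rw [Submodule.span_le]
    rintro _ ⟨v, P, rfl⟩
    have h1 : N • hV h.hom h.ok v P ∈ Submodule.span ℚ S := Submodule.subset_span ⟨v, P, rfl⟩
    have h2 := Submodule.smul_mem _ ((N : ℚ)⁻¹) h1
    rwa [← Nat.cast_smul_eq_nsmul ℚ, smul_smul, inv_mul_cancel₀ hN0, one_smul] at h2
  refine mainC h.hom hLn hd hdeg h.pos (fun h0 => ?_) (fun h0 => ?_) riemann_line
    (by rwa [add_zero]) (δ := δ) (by rwa [hdα, hdB]) S ?_ w fun j => hspan (hw j)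
  · rw [hdα] at h0 ⊢
    exact_mod_cast hbound 4 a ha h0
  · rw [hdB] at h0 ⊢
    exact_mod_cast hbound 6 b hb h0
  rintro U d' hd' hmap _ ⟨v, P, rfl⟩
  let j : RatFunc k →ₐ[k] Om k := IsScalarTower.toAlgHom k (RatFunc k) (Om k)
  have hSj : ((j.comp (regU U).val : regU U →ₐ[k] Om k) : regU U →+* Om k) =
      (algebraMap (RatFunc k) (Om k)).comp ((regU U).val : regU U →+* RatFunc k) := rfl
  have ea : algebraMap (RatFunc k) (Om k) a₀ = (j.comp (regU U).val) d'.α := by
    rw [← hdα, ← congrArg GD.α hmap]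
    rfl
  have eb : algebraMap (RatFunc k) (Om k) b₀ = (j.comp (regU U).val) d'.B := by
    rw [← hdB, ← congrArg GD.B hmap]
    rfl
  have hr : d'.rts ((j.comp (regU U).val : regU U →ₐ[k] Om k) : regU U →+* Om k) =
      d.rts (algebraMap (RatFunc k) (Om k)) := by
    rw [hSj, ← rts_map, hmap]
  refine ⟨j, v, castE ea eb P, ?_⟩
  unfold TV
  rw [AddMonoidHom.finsetSum_apply]
  have key : ∀ θ' : {θ' // θ' ∈ d'.rts ((j.comp (regU U).val : regU U →ₐ[k] Om k) :
      regU U →+* Om k)}, hV h.hom (hd'.mp_ok (j.comp (regU U).val) θ'.2) v (castE ea eb P) =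
      hV h.hom h.ok v P := by
    intro θ'
    have h1 : θ'.1 ∈ d.rts (algebraMap (RatFunc k) (Om k)) := hr ▸ θ'.2
    obtain ⟨τ, hτ⟩ := mp_conj hdh hmp h1
    have h2 : ∀ t : Om k, d'.mp ((j.comp (regU U).val : regU U →ₐ[k] Om k) :
        regU U →+* Om k) t = d.mp (algebraMap (RatFunc k) (Om k)) t := fun t => by
      rw [hSj, ← mp_map, hmap]
    rw [← hV_map h τ v P]
    exact (hV_cast h.hom (ok_map h τ) (hd'.mp_ok _ θ'.2) ea eb ((h2 θ'.1).trans hτ).symm v
      P).symm
  rw [Finset.sum_congr rfl fun θ' _ => key θ', Finset.sum_const, Finset.card_univ]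
  congr 1
  rw [Fintype.card_coe, hr]

end Pool.Agent.KEx
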