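import Pool.Agent.KEx.Auto
import Pool.Agent.KEx.Avg
import Pool.Agent.KAll.Cls

/-!
# Fibrations in curves of genus one over the line: the classes of the points

The sum of the conjugates of one point of the generic fibre is constant, and it differs from a
multiple of any point of a fibre by a value of the limit homomorphism.
-/

set_option autoImplicit false

noncomputable section

namespace Pool.Agent.KEx

open Pool.Agent.ZCyc Pool.Agent.Dess Pool.Agent.TInc Pool.Agent.GT Pool.Agent.KAll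
open Pool.Agent.VFP (Om tt)
open scoped Classical LinearAlgebra.Projectivization

variable {k : Type} [Field k] [IsAlgClosed k] [CharZero k] {m : ℕ}
  {X : Set (MvPolynomial (Fin (m + 1)) k)} {α B : Om k} {M : Mp (Om k) m} {r : ℕ}

/-- the conjugate map -/
def cj (M : Mp (Om k) m) (τ : Om k ≃ₐ[RatFunc k] Om k) : Mp (Om k) m :=
  M.map ((τ.restrictScalars k : Om k ≃ₐ[k] Om k) : Om k →+* Om k)

omit [IsAlgClosed k] [CharZero k] in
theorem cj_co (M : Mp (Om k) m) (τ : Om k ≃ₐ[RatFunc k] Om k) (x y : Om k) (i : Fin (m + 1)) :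
    (cj M τ).co (τ x) (τ y) i = τ (M.co x y i) := by
  have h : ∀ (p : Polynomial (Om k)) (z : Om k),
      (p.map ((τ.restrictScalars k : Om k ≃ₐ[k] Om k) : Om k →+* Om k)).eval (τ z) =
        τ (p.eval z) := fun p z => by
    rw [Polynomial.eval_map]
    exact Polynomial.eval₂_at_apply ((τ.restrictScalars k : Om k ≃ₐ[k] Om k) : Om k →+* Om k) z
  change ((M.G i).map _).eval (τ x) + ((M.H i).map _).eval (τ x) * τ y =
    τ ((M.G i).eval x + (M.H i).eval x * y)
  rw [h, h, map_add, map_mul]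

omit [IsAlgClosed k] [CharZero k] in
theorem fix_coef (h : IsFib X α B M r) (τ : Om k ≃ₐ[RatFunc k] Om k) : τ α = α ∧ τ B = B := by
  obtain ⟨a, b, -, -, ha, hb⟩ := h.coef
  have ht : τ (tt k) = tt k := τ.commutes RatFunc.X
  have key : ∀ p : Polynomial k, τ (Polynomial.aeval (tt k) p) = Polynomial.aeval (tt k) p := by
    intro p
    have h1 := Polynomial.aeval_algHom_apply
      ((τ.restrictScalars k : Om k ≃ₐ[k] Om k) : Om k →ₐ[k] Om k) (tt k) p
    have h2 : ((τ.restrictScalars k : Om k ≃ₐ[k] Om k) : Om k →ₐ[k] Om k) (tt k) = tt k := ht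
    rw [h2] at h1
    exact h1.symm
  rw [ha, hb]
  exact ⟨key a, key b⟩

theorem cj_ok (h : IsFib X α B M r) (τ : Om k ≃ₐ[RatFunc k] Om k) : (cj M τ).Ok α B X :=
  ok_conj (τ.restrictScalars k) (fix_coef h τ).1 (fix_coef h τ).2 rfl h.ok

/-- the limits of the images under the conjugate map -/
theorem cj_lmp (h : IsFib X α B M r) (τ : Om k ≃ₐ[RatFunc k] Om k) :
    ∃ A : (Ec α B).Point, ∀ (R : (Ec α B).Point), (cj M τ).Ns R → M.Ns (R + A) →
      ∀ V : Place k (Om k), lmp h.hom (cj_ok h τ) V R = lmp h.hom h.ok V (R + A) := by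
  obtain ⟨A, hA⟩ := h.conj τ
  refine ⟨A, fun R h1 h2 V => ?_⟩
  obtain ⟨x, y, hxy, rfl⟩ : ∃ x y hxy, R = .some x y hxy := by
    cases R with
    | zero => exact h1.elim
    | some x y h => exact ⟨x, y, h, rfl⟩
  obtain ⟨x', y', hxy', e⟩ : ∃ x' y' hxy',
      (.some x y hxy : (Ec α B).Point) + A = .some x' y' hxy' := by
    generalize (.some x y hxy : (Ec α B).Point) + A = R' at h2
    cases R' with
    | zero => exact h2.elim
    | some x y h => exact ⟨x, y, h, rfl⟩
  rw [e] at h2 ⊢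
  obtain ⟨x₁, rfl⟩ := τ.surjective x
  obtain ⟨y₁, rfl⟩ := τ.surjective y
  obtain ⟨c, hc⟩ := hA x₁ y₁ x' y' hxy hxy' e h2
  have h3 : (cj M τ).co (τ x₁) (τ y₁) ≠ 0 := h1
  have h4 : M.co x' y' ≠ 0 := h2
  have hcne : c ≠ 0 := by
    rintro rfl
    apply h3
    funext i
    rw [cj_co, hc, zero_mul]
    rfl
  obtain ⟨p, hp⟩ := value_of_pt h.hom h.ok V (eqn_iff.1 hxy'.1) h4
  have hp' : IsValue X V ((cj M τ).co (τ x₁) (τ y₁)) p := by
    obtain ⟨l, hl⟩ := hp
    refine ⟨l / c, fun i => ?_⟩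
    rw [cj_co, hc, ← mul_assoc, div_mul_cancel₀ _ hcne]
    exact hl i
  rw [(lmp_value h.hom h.ok hxy' hp).2, (lmp_value h.hom (cj_ok h τ) hxy hp').2]

/-- the limit homomorphism of the conjugate map -/
theorem cj_hV (h : IsFib X α B M r) (τ : Om k ≃ₐ[RatFunc k] Om k) (V : Place k (Om k))
    (P : (Ec α B).Point) : hV h.hom (cj_ok h τ) V P = hV h.hom h.ok V P := by
  obtain ⟨A, hA⟩ := cj_lmp h τ
  have := infinite_points (α := α) (B := B) h.ok.disc
  have f1 : {Q : (Ec α B).Point | ¬ (cj M τ).Ns Q}.Finite := finite_bad (cj_ok h τ).ne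
  have f2 : {Q : (Ec α B).Point | ¬ M.Ns Q}.Finite := finite_bad h.ok.ne
  obtain ⟨Q, hQ⟩ := ((f1.union (f1.preimage (f := fun Q => P + Q)
    (add_right_injective P).injOn)).union ((f2.preimage (f := fun Q => Q + A)
    (add_left_injective A).injOn).union (f2.preimage (f := fun Q => P + Q + A)
    (fun a _ b _ hab => add_right_injective P (add_left_injective A hab))))).exists_notMem
  simp only [Set.mem_union, Set.mem_preimage, Set.mem_ofPred_eq, not_or, not_not] at hQ
  obtain ⟨⟨h1, h2⟩, h3, h4⟩ := hQ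
  rw [← hV_spec h.hom (cj_ok h τ) V h1 h2, hA _ h1 h3, hA _ h2 h4]
  have h5 := hV_spec h.hom h.ok V (P := P) (Q := Q + A) h3 (by rwa [← add_assoc])
  rw [← add_assoc] at h5
  exact h5

/-- the values of a point of a fibre and of a conjugate -/
theorem cj_diff (h : IsFib X α B M r) (τ : Om k ≃ₐ[RatFunc k] Om k) (V : Place k (Om k))
    {P P' : (Ec α B).Point} (hP : M.Ns P) (hP' : (cj M τ).Ns P') :
    lmp h.hom h.ok V P - lmp h.hom (cj_ok h τ) V P' ∈
      Submodule.span ℚ (QRT.HVs h.hom h.ok) := by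
  obtain ⟨A, hA⟩ := cj_lmp h τ
  have := infinite_points (α := α) (B := B) h.ok.disc
  have f1 : {Q : (Ec α B).Point | ¬ (cj M τ).Ns Q}.Finite := finite_bad (cj_ok h τ).ne
  have f2 : {Q : (Ec α B).Point | ¬ M.Ns Q}.Finite := finite_bad h.ok.ne
  obtain ⟨R, hR⟩ := (f1.union (f2.preimage (f := fun Q => Q + A)
    (add_left_injective A).injOn)).exists_notMem
  simp only [Set.mem_union, Set.mem_preimage, Set.mem_ofPred_eq, not_or, not_not] at hR
  obtain ⟨h1, h2⟩ := hR
  have e1 := hV_spec h.hom h.ok V (P := P - (R + A)) (Q := R + A) h2 (by rwa [sub_add_cancel])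
  have e2 := hV_spec h.hom (cj_ok h τ) V (P := P' - R) (Q := R) h1 (by rwa [sub_add_cancel])
  rw [sub_add_cancel] at e1 e2
  rw [hA R h1 h2, cj_hV h] at e2
  have e3 : lmp h.hom h.ok V P - lmp h.hom (cj_ok h τ) V P' =
      hV h.hom h.ok V (P - (R + A)) - hV h.hom h.ok V (P' - R) := by
    rw [← e1, ← e2]
    abel
  rw [e3]
  exact Submodule.sub_mem _ (Submodule.subset_span ⟨V, _, rfl⟩)
    (Submodule.subset_span ⟨V, _, rfl⟩)

/-- **All classes are combinations of values of the limit homomorphisms and one class.** -/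
theorem fib_top (h : IsFib X α B M r) : ∃ c₀ : CH X Unit,
    Submodule.span ℚ (QRT.HVs h.hom h.ok) ⊔ Submodule.span ℚ {c₀} = ⊤ := by
  have hX := h.hom
  have hM := h.ok
  -- one point
  obtain ⟨x₀, y₀, h₀, hne⟩ : ∃ x₀ y₀ : Om k, y₀ ^ 2 = x₀ ^ 3 - 3 * α * x₀ + B ∧
      M.co x₀ y₀ ≠ 0 := by
    have := infinite_points hM.disc
    obtain ⟨Q, hQ⟩ := (finite_bad (α := α) (B := B) hM.ne).exists_notMem
    have hQ1 : M.Ns Q := by
      by_contra hc
      exact hQ hc
    rcases Q with _ | ⟨x, y, hxy⟩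
    · exact hQ1.elim
    · exact ⟨x, y, eqn_iff.1 hxy.1, hQ1⟩
  obtain ⟨K, xK, hK, -, htK, hxK⟩ := exists_field hX ∅ (J := Unit) fun _ =>
    mkPt hX (M.co x₀ y₀) hne fun f hf => hM.onX f hf x₀ y₀ h₀
  have htt : Transcendental k (tt k) := Pool.Agent.VFP.tt_transc
  have hψ : Transcendental k (⟨tt k, htK⟩ : K) := by
    intro hal
    apply htt
    exact (isAlgebraic_algHom_iff K.val K.val.injective).2 hal
  obtain ⟨E, hE⟩ := EFC.exists_E hK hψ htt
  obtain ⟨C, hC⟩ := avg_const hX hK hψ (xK ()) E hE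
  have hEne : E.Nonempty := ⟨K.val, (hE _).2 rfl⟩
  have hcard : (E.card : ℚ) ≠ 0 := by
    rw [Nat.cast_ne_zero, Finset.card_ne_zero]
    exact hEne
  refine ⟨C, ?_⟩
  rw [eq_top_iff]
  rintro c' -
  obtain ⟨z, rfl⟩ := KSup.cl1_surj c'
  have hp : ∀ p : Pt X k, cl1 X (Finsupp.single p 1) ∈
      Submodule.span ℚ (QRT.HVs hX hM) ⊔ Submodule.span ℚ {C} := by
    intro p
    obtain ⟨V, x, y, hxy, -, hv⟩ := exists_value h.toFam p
    obtain ⟨n1, l1⟩ := lmp_value hX hM (nonsing hM.disc hxy) hv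
    have hσ : ∀ σ ∈ E, cl1 X (Finsupp.single p 1) -
        lim1 hX V (Finsupp.single ((xK ()).map σ hX) 1) ∈
          Submodule.span ℚ (QRT.HVs hX hM) := by
      intro σ hσ
      obtain ⟨τ, hτ⟩ := exists_auto K htK σ ((hE σ).1 hσ)
      have hns : (cj M τ).co (τ x₀) (τ y₀) ≠ 0 := by
        intro h0
        apply hne
        funext i
        have h1 := congrFun h0 i
        rw [cj_co] at h1
        exact (map_eq_zero τ).1 h1
      have hxy' : (τ y₀) ^ 2 = (τ x₀) ^ 3 - 3 * α * τ x₀ + B := by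
        have h1 := congrArg τ h₀
        rw [map_pow, map_add, map_sub, map_pow, map_mul, map_mul, map_ofNat, (fix_coef h τ).1,
          (fix_coef h τ).2] at h1
        exact h1
      have hpt : (xK ()).map σ hX = mkPt hX ((cj M τ).co (τ x₀) (τ y₀)) hns fun f hf =>
          (cj_ok h τ).onX f hf _ _ hxy' := by
        have h1 := congrArg Subtype.val (hxK ())
        have h2 : Projectivization.mk (Om k) (fun i => K.val ((xK ()).1.rep i)) _ =
          Projectivization.mk (Om k) (M.co x₀ y₀) hne := h1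
        rw [Projectivization.mk_eq_mk_iff'] at h2
        obtain ⟨u, hu⟩ := h2
        apply Subtype.ext
        change Projectivization.mk (Om k) (fun i => σ ((xK ()).1.rep i)) _ =
          Projectivization.mk (Om k) ((cj M τ).co (τ x₀) (τ y₀)) hns
        rw [Projectivization.mk_eq_mk_iff']
        refine ⟨τ u, ?_⟩
        funext i
        rw [Pi.smul_apply, cj_co, smul_eq_mul, ← map_mul]
        have h3 := congrFun hu i
        rw [Pi.smul_apply, smul_eq_mul] at h3
        rw [h3]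
        exact hτ _
      obtain ⟨q, hq⟩ := value_of_pt hX (cj_ok h τ) V hxy' hns
      obtain ⟨n2, l2⟩ := lmp_value hX (cj_ok h τ) (nonsing hM.disc hxy') hq
      have h4 : lim1 hX V (Finsupp.single ((xK ()).map σ hX) 1) =
          cl1 X (Finsupp.single q 1) := by
        refine KSup.lim1_single hX V _ ?_
        rw [hpt]
        exact (isVal_iff hns q.1.rep_nonzero rfl (Projectivization.mk_rep q.1).symm).2 hq
      rw [h4, ← l1, ← l2]
      exact cj_diff h τ V n1 n2
    have h5 : (E.card : ℚ) • cl1 X (Finsupp.single p 1) - C ∈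
        Submodule.span ℚ (QRT.HVs hX hM) := by
      have h6 : (E.card : ℚ) • cl1 X (Finsupp.single p 1) - C = ∑ σ ∈ E,
          (cl1 X (Finsupp.single p 1) - lim1 hX V (Finsupp.single ((xK ()).map σ hX) 1)) := by
        rw [Finset.sum_sub_distrib, Finset.sum_const, hC V, Nat.cast_smul_eq_nsmul]
      rw [h6]
      exact Submodule.sum_mem _ hσ
    have h7 : cl1 X (Finsupp.single p 1) = (E.card : ℚ)⁻¹ •
        (((E.card : ℚ) • cl1 X (Finsupp.single p 1) - C) + C) := by
      rw [sub_add_cancel, smul_smul, inv_mul_cancel₀ hcard, one_smul]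
    rw [h7]
    refine Submodule.smul_mem _ _ (Submodule.add_mem _ ?_ ?_)
    · exact Submodule.mem_sup_left h5
    · exact Submodule.mem_sup_right (Submodule.mem_span_singleton_self _)
  rw [← Finsupp.sum_single z, map_finsuppSum]
  refine Submodule.sum_mem _ fun p _ => ?_
  have h2 : Finsupp.single p (z p) = z p • Finsupp.single p (1 : ℚ) := by
    rw [Finsupp.smul_single, smul_eq_mul, mul_one]
  change cl1 X (Finsupp.single p (z p)) ∈ _
  rw [h2, map_smul]
  exact Submodule.smul_mem _ _ (hp p)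

end Pool.Agent.KEx
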