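import Pool.Agent.KEx.Hv
import Pool.Agent.KEx.Top
import Pool.Agent.KNum.Sum

/-!
# Kimura's finiteness with the number
-/

set_option autoImplicit false

noncomputable section

namespace Pool.Agent.KEx

open Pool.Agent.ZCyc Pool.Agent.Dess Pool.Agent.TInc Pool.Agent.GT Pool.Agent.KAll
open Pool.Agent.KSup Pool.Agent.KNum
open Pool.Agent.VFP (Om tt)
open scoped Classical LinearAlgebra.Projectivization

variable {k : Type} [Field k] [IsAlgClosed k] [CharZero k]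

/-- **One surface.** -/
theorem fib_dim {m : ℕ} {X : Set (MvPolynomial (Fin (m + 1)) k)} {α B : Om k}
    {M : Mp (Om k) m} {r : ℕ} (h : IsFib X α B M r) :
    DimLE (fun N => GT.Rat X (Fin N)) r := by
  obtain ⟨c₀, htop⟩ := fib_top h
  have hr := h.pos
  have h1 := dimLE_add h.hom (h := r - 1) (S := Submodule.span ℚ (QRT.HVs h.hom h.ok))
    (c₀ := c₀) (fun w hw => fib_hv h (by omega) w hw) htop
  rwa [Nat.sub_add_cancel hr] at h1

theorem fib_dimR {X : Var k} {r : ℕ} (h : X.Fib r) : DimLE (R1 X) r := by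
  cases X with
  | covered X =>
    obtain ⟨α, B, M, h⟩ := h
    exact fib_dim h
  | quartic F => exact h.elim
  | plane F => exact h.elim
  | lines F => exact h.elim

omit [IsAlgClosed k] [CharZero k] in
theorem fib_adm {X : Var k} {r : ℕ} (h : X.Fib r) : X.Adm := by
  cases X with
  | covered X =>
    obtain ⟨α, B, M, h⟩ := h
    exact ⟨α, B, M, h.toFam⟩
  | quartic F => exact h.elim
  | plane F => exact h.elim
  | lines F => exact h.elim

/-- **Products.** -/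
theorem prod_dim {m : ℕ} (X : Fin m → Var k) (d : Fin m → ℕ) (hX : ∀ a, (X a).Fib (d a)) :
    DimLE (fun N => KAll.Rat X N) (∏ a, d a) :=
  dimLE_product X (fun a => hasBase (fib_adm (hX a))) d fun a => fib_dimR (hX a)

/-- **The number `N`.** -/
theorem number {r : ℕ} {m : Fin r → ℕ}
    (X : ∀ s, Fin (m s) → Var k) (d : ∀ s, Fin (m s) → ℕ) (hX : ∀ s a, (X s a).Fib (d s a))
    {n : ℕ} {Y : Set (MvPolynomial (Fin (n + 1)) k)} (hY : GT.Hom Y)
    (Φ : ∀ s, (∀ a, (X s a).Pts k) → (GT.Pt Y k →₀ ℚ)) (hΦ : ∀ s, IsCor (X s) Y (Φ s))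
    (hgen : (⨆ s, Submodule.span ℚ (Set.range (Φ s))) ⊔ RatZ Y = ⊤)
    {N : ℕ} (hN : ∑ s, ∏ a, d s a < N) (z : Fin N → (GT.Pt Y k →₀ ℚ)) :
    ∑ τ : Equiv.Perm (Fin N), ((Equiv.Perm.sign τ : ℤˣ) : ℤ) • GT.ext (fun j => z (τ j)) ∈
      GT.Rat Y (Fin N) :=
  dimLE_dominated hY X (fun s => ∏ a, d s a) (fun s => prod_dim (X s) (d s) (hX s)) Φ hΦ hgen N
    hN z

/-- **Products, and everything which they dominate, with the number.** -/
theorem roof {r : ℕ} {m : Fin r → ℕ} (X : ∀ s, Fin (m s) → Var k)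
    (hX : ∀ s a, (X s a).Adm) :
    ∃ A B : ∀ s, Submodule ℚ ((∀ a, (X s a).Pts k) →₀ ℚ),
      (∀ s, Kim (fun N => KAll.Rat (X s) N) (A s) (B s)) ∧
      (∀ s, (∀ a, (X s a).Evn) → B s = ⊥) ∧
      (∀ s (d : Fin (m s) → ℕ), (∀ a, (X s a).Fib (d a)) →
        DimLE (fun N => KAll.Rat (X s) N) (∏ a, d a)) ∧
      ∀ (n : ℕ) (Y : Set (MvPolynomial (Fin (n + 1)) k))
        (Φ : ∀ s, (∀ a, (X s a).Pts k) → (GT.Pt Y k →₀ ℚ)), GT.Hom Y →
        (∀ s, IsCor (X s) Y (Φ s)) →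
        (⨆ s, Submodule.span ℚ (Set.range (Φ s))) ⊔ RatZ Y = ⊤ →
        Kim (fun N => GT.Rat Y (Fin N))
          ((⨆ s, (A s).map (Finsupp.linearCombination ℚ (Φ s))) ⊔ RatZ Y)
          (⨆ s, (B s).map (Finsupp.linearCombination ℚ (Φ s))) ∧
        ∀ d : ∀ s, Fin (m s) → ℕ, (∀ s a, (X s a).Fib (d s a)) →
          DimLE (fun N => GT.Rat Y (Fin N)) (∑ s, ∏ a, d s a) := by
  obtain ⟨A, B, h1, h2, h3⟩ := KSup.roof X hX
  exact ⟨A, B, h1, h2, fun s d hd => prod_dim (X s) d hd, fun n Y Φ hY hΦ hgen =>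
    ⟨h3 n Y Φ hY hΦ hgen, fun d hd N hN z => number X d hd hY Φ hΦ hgen hN z⟩⟩

end Pool.Agent.KEx
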