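import Pool.Agent.KEx.Conj
import Pool.Agent.GT.IsoT

/-!
# The map and its conjugates as data over `k(t)`

The coefficients of the map are polynomials in a primitive element `θ` of the field which they
generate over `k(t)`, the other conjugates of the map belong to the other roots of the minimal
polynomial of `θ`.
-/

set_option autoImplicit false

noncomputable section

namespace Pool.Agent.KEx

open Pool.Agent.ZCyc Pool.Agent.Dess Pool.Agent.GT Pool.Agent.KAll Pool.Agent.TInc Polynomial
open Pool.Agent.VFP (Om tt)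
open scoped Classical LinearAlgebra.Projectivization

variable {k : Type} [Field k] [CharZero k] {m : ℕ} {X : Set (MvPolynomial (Fin (m + 1)) k)}

/-- a primitive element -/
private theorem exists_prim (S : Finset (Om k)) : ∃ θ : Om k, ∀ c ∈ S, ∃ p : (RatFunc k)[X],
    Polynomial.aeval θ p = c := by
  set K := IntermediateField.adjoin (RatFunc k) (S : Set (Om k)) with hK
  have hfd : FiniteDimensional (RatFunc k) K :=
    IntermediateField.finiteDimensional_adjoin fun x _ => Algebra.IsIntegral.isIntegral x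
  obtain ⟨θ, hθ⟩ := Field.exists_primitive_element (RatFunc k) K
  refine ⟨θ, fun c hc => ?_⟩
  have hcK : c ∈ K := IntermediateField.subset_adjoin _ _ hc
  have h1 : (⟨c, hcK⟩ : K) ∈ IntermediateField.adjoin (RatFunc k) {θ} := by
    rw [hθ]
    trivial
  have h2 : (⟨c, hcK⟩ : K) ∈ Algebra.adjoin (RatFunc k) {θ} := by
    rw [← IntermediateField.adjoin_simple_toSubalgebra_of_isAlgebraic
      (Algebra.IsAlgebraic.isAlgebraic θ)]
    exact h1
  rw [Algebra.adjoin_singleton_eq_range_aeval] at h2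
  obtain ⟨p, hp⟩ := h2
  refine ⟨p, ?_⟩
  have h3 : K.val (Polynomial.aeval θ p) = K.val ⟨c, hcK⟩ := congrArg K.val hp
  rw [← Polynomial.aeval_algHom_apply] at h3
  exact h3

/-- **The data over `k(t)`.** -/
theorem exists_gd {α B : RatFunc k} {M : Mp (Om k) m}
    (hM : M.Ok (algebraMap (RatFunc k) (Om k) α) (algebraMap (RatFunc k) (Om k) B) X) :
    ∃ (d : GD (RatFunc k) m) (θ : Om k), d.Ok X ∧ d.α = α ∧ d.B = B ∧
      d.h = minpoly (RatFunc k) θ ∧ d.mp (algebraMap (RatFunc k) (Om k)) θ = M := by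
  obtain ⟨θ, hθ⟩ := exists_prim ((Finset.univ.biUnion fun i => (M.G i).coeffs) ∪
    (Finset.univ.biUnion fun i => (M.H i).coeffs))
  have hint : IsIntegral (RatFunc k) θ := Algebra.IsIntegral.isIntegral θ
  set φ : (RatFunc k)[X] →+* Om k :=
    Polynomial.eval₂RingHom (algebraMap (RatFunc k) (Om k)) θ with hφ
  have hφa : ∀ p, φ p = Polynomial.aeval θ p := fun p => rfl
  have hlift : ∀ q : (Om k)[X], (∀ c ∈ q.coeffs, ∃ p : (RatFunc k)[X],
      Polynomial.aeval θ p = c) → ∃ p : (RatFunc k)[X][X], p.map φ = q := by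
    intro q hq
    have h1 : q ∈ Polynomial.lifts φ := by
      rw [Polynomial.lifts_iff_coeff_lifts]
      intro n
      by_cases hn : q.coeff n = 0
      · exact ⟨0, by rw [hn, map_zero]⟩
      · obtain ⟨p, hp⟩ := hq _ (Polynomial.coeff_mem_coeffs hn)
        exact ⟨p, hp⟩
    exact (Polynomial.mem_lifts _).1 h1
  choose G hG using fun i => hlift (M.G i) fun c hc => hθ c (Finset.mem_union_left _
    (Finset.mem_biUnion.2 ⟨i, Finset.mem_univ i, hc⟩))
  choose H hH using fun i => hlift (M.H i) fun c hc => hθ c (Finset.mem_union_right _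
    (Finset.mem_biUnion.2 ⟨i, Finset.mem_univ i, hc⟩))
  let d : GD (RatFunc k) m := ⟨α, B, minpoly (RatFunc k) θ, G, H⟩
  have hmp : d.mp (algebraMap (RatFunc k) (Om k)) θ = M := by
    change (⟨fun i => (G i).map φ, fun i => (H i).map φ⟩ : Mp (Om k) m) = M
    rw [funext hG, funext hH]
  refine ⟨d, θ, ⟨minpoly.monic hint, ?_, ?_, ?_, ?_⟩, rfl, rfl, rfl, hmp⟩
  · obtain ⟨u, w, huw⟩ := (minpoly.irreducible hint).separable
    exact ⟨u, w, huw⟩
  · rw [isUnit_iff_ne_zero]
    intro h
    apply hM.disc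
    have h1 := congrArg (algebraMap (RatFunc k) (Om k)) h
    change algebraMap (RatFunc k) (Om k) (B ^ 2 - 4 * α ^ 3) = _ at h1
    rw [map_sub, map_mul, map_pow, map_pow, map_ofNat, map_zero] at h1
    exact sub_eq_zero.1 h1
  · obtain ⟨i, hi⟩ := hM.ne
    have key : ∀ q : (RatFunc k)[X][X], q.map φ ≠ 0 → ∃ n, φ (q.coeff n) ≠ 0 := by
      intro q hq
      by_contra hcon
      push Not at hcon
      apply hq
      ext n
      rw [Polynomial.coeff_map, hcon, Polynomial.coeff_zero]
    have h2 : ∃ c : (RatFunc k)[X], φ c ≠ 0 ∧ c ∈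
        ({d.h} ∪ {c | ∃ i j, c = (d.G i).coeff j ∨ c = (d.H i).coeff j} :
          Set (RatFunc k)[X]) := by
      rcases hi with hi | hi
      · rw [← hG] at hi
        obtain ⟨n, hn⟩ := key _ hi
        exact ⟨(G i).coeff n, hn, Or.inr ⟨i, n, Or.inl rfl⟩⟩
      · rw [← hH] at hi
        obtain ⟨n, hn⟩ := key _ hi
        exact ⟨(H i).coeff n, hn, Or.inr ⟨i, n, Or.inr rfl⟩⟩
    obtain ⟨c, hc, hmem⟩ := h2
    by_contra hne
    have hmax := PrincipalIdealRing.isMaximal_of_irreducible (minpoly.irreducible hint)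
    have hle : Ideal.span {minpoly (RatFunc k) θ} ≤ Ideal.span ({d.h} ∪
        {c | ∃ i j, c = (d.G i).coeff j ∨ c = (d.H i).coeff j} : Set (RatFunc k)[X]) :=
      Ideal.span_mono fun x hx => Or.inl hx
    have heq := hmax.eq_of_le hne hle
    have h3 : c ∈ Ideal.span {minpoly (RatFunc k) θ} := heq.ge (Ideal.subset_span hmem)
    rw [Ideal.mem_span_singleton] at h3
    obtain ⟨e, rfl⟩ := h3
    apply hc
    rw [hφa, map_mul, minpoly.aeval, zero_mul]
  · intro K _ _ S θ' hθ' x y hxy f hf
    obtain ⟨a, b, hab⟩ := exists_ab d f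
    have hz : a.map φ = 0 ∧ b.map φ = 0 := by
      refine ab_zero (algebraMap (RatFunc k) (Om k) α) (algebraMap (RatFunc k) (Om k) B) _ _
        fun x y hxy => ?_
      have h1 := hab (Om k) (IsScalarTower.toAlgHom k (RatFunc k) (Om k)) θ x y hxy
      have h2 := hM.onX f hf x y hxy
      rw [← hmp] at h2
      have h3 : d.mp ((IsScalarTower.toAlgHom k (RatFunc k) (Om k) : RatFunc k →ₐ[k] Om k) :
          RatFunc k →+* Om k) θ = d.mp (algebraMap (RatFunc k) (Om k)) θ := rfl
      rw [h3, h2] at h1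
      exact h1.symm
    have hroot : (minpoly (RatFunc k) θ).eval₂ (S : RatFunc k →+* K) θ' = 0 := by
      rw [GD.rts, Multiset.mem_toFinset] at hθ'
      have h3 := Polynomial.isRoot_of_mem_roots hθ'
      rw [Polynomial.IsRoot, Polynomial.eval_map] at h3
      exact h3
    have hinj : ∀ c : (RatFunc k)[X][X], c.map φ = 0 → ev2 (S : RatFunc k →+* K) θ' x c = 0 := by
      intro c hc
      have h1 : c.map (Polynomial.eval₂RingHom (S : RatFunc k →+* K) θ') = 0 := by
        ext n
        rw [Polynomial.coeff_map, Polynomial.coeff_zero]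
        have h2 : Polynomial.aeval θ (c.coeff n) = 0 := by
          have h3 := congrArg (fun q => Polynomial.coeff q n) hc
          simp only [Polynomial.coeff_map, Polynomial.coeff_zero] at h3
          exact h3
        obtain ⟨e, he⟩ := minpoly.dvd (RatFunc k) θ h2
        rw [he, map_mul]
        change (minpoly (RatFunc k) θ).eval₂ (S : RatFunc k →+* K) θ' * _ = 0
        rw [hroot, zero_mul]
      unfold ev2
      rw [h1, Polynomial.eval_zero]
    rw [hab K S θ' x y hxy, hinj a hz.1, hinj b hz.2, zero_mul, add_zero]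

/-- the roots of the minimal polynomial are conjugate, and so are the maps -/
theorem mp_conj {d : GD (RatFunc k) m} {θ θ' : Om k} {M : Mp (Om k) m}
    (hh : d.h = minpoly (RatFunc k) θ) (hM : d.mp (algebraMap (RatFunc k) (Om k)) θ = M)
    (hθ' : θ' ∈ d.rts (algebraMap (RatFunc k) (Om k))) :
    ∃ τ : Om k ≃ₐ[RatFunc k] Om k,
      d.mp (algebraMap (RatFunc k) (Om k)) θ' = M.map (τ : Om k →+* Om k) := by
  have h1 : Polynomial.aeval θ' (minpoly (RatFunc k) θ) = 0 := by
    rw [GD.rts, Multiset.mem_toFinset, hh] at hθ'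
    have h3 := Polynomial.isRoot_of_mem_roots hθ'
    rw [Polynomial.IsRoot, Polynomial.eval_map] at h3
    exact h3
  have h2 : IsConjRoot (RatFunc k) θ θ' := by
    rw [isConjRoot_iff_aeval_eq_zero (Algebra.IsIntegral.isIntegral θ)]
    exact h1
  obtain ⟨τ, hτ⟩ := (isConjRoot_iff_exists_algEquiv).1 h2.symm
  refine ⟨τ, ?_⟩
  have h4 : (Polynomial.eval₂RingHom (algebraMap (RatFunc k) (Om k)) θ') =
      (τ : Om k →+* Om k).comp (Polynomial.eval₂RingHom (algebraMap (RatFunc k) (Om k)) θ) := by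
    refine Polynomial.ringHom_ext (fun a => ?_) ?_
    · simp
    · simp [hτ]
  rw [← hM]
  unfold GD.mp Mp.map
  simp only [Polynomial.map_map, h4]

end Pool.Agent.KEx
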